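import Pool.Agent.H95.FJ.Defs

open MvPolynomial

namespace H59.FJ

open H95.FG H95.FI H95.FJ

theorem t_SPAN : S_SPAN := by
  intro n s h hli
  by_contra hne
  obtain ⟨f, hf0, hf⟩ := Submodule.exists_le_ker_of_lt_top
    (Submodule.span ℂ (Set.range (hv h))) (lt_top_iff_ne_top.mpr hne)
  have h1 : ∀ u : Vn n, ∑ a, eval u (h a) * f (fun j => if a = j then 1 else 0) = 0 := by
    intro u
    have h2 : f (hv h u) = 0 := LinearMap.mem_ker.mp (hf (Submodule.subset_span ⟨u, rfl⟩))
    rw [LinearMap.pi_apply_eq_sum_univ f (hv h u)] at h2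
    simpa [hv, smul_eq_mul] using h2
  have h3 : ∑ a, f (fun j => if a = j then 1 else 0) • h a = 0 := by
    apply MvPolynomial.funext
    intro u
    rw [map_sum, map_zero]
    refine Eq.trans ?_ (h1 u)
    apply Finset.sum_congr rfl
    intro a _
    rw [smul_eval, mul_comm]
  have h4 := Fintype.linearIndependent_iff.mp hli _ h3
  apply hf0
  apply LinearMap.ext
  intro v
  rw [LinearMap.pi_apply_eq_sum_univ f v, LinearMap.zero_apply]
  apply Finset.sum_eq_zero
  intro a _
  rw [h4 a, smul_zero]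

end H59.FJ
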